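import Pool.Agent.helper92.DP.SEPI
import Pool.Agent.helper64.TP.SpecE
import Pool.Agent.helper64.TP.Basic
/-!
# Project sp, port of dp: separation of arms, inner side (module SEPI), from SEXI
-/

namespace TP

open DP

open MeasureTheory

theorem SEPI (h : SEXI_stmt) : SEPI_stmt := by
  intro b₀ hb₀
  obtain ⟨C, hC, i₁, hS⟩ := h
  refine ⟨C * (1 + 1 / b₀), by positivity, i₁, ?_⟩
  intro j ρ x D i₀ hj hρ hx hi₀ hD hmono hbase i hi hi'
  have hA : (0 : ℝ) ≤ 1 / b₀ := by positivity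
  have h1 := hS j ρ x D Set.univ i₀ (1 / b₀) hj hρ hx hi₀ hD (Loc.univ _) hA hmono (by
    refine (SEPI_Q_le_one ρ _ _).trans ?_
    simp only [Set.univ_inter]
    calc (1 : ℝ) = 1 / b₀ * b₀ := by field_simp
      _ ≤ _ := by gcongr) i hi hi'
  simp only [Set.univ_inter] at h1
  refine h1.trans ?_
  have hg : 0 ≤ Q ρ (Ev fun c => Std c j false x (2 ^ (i - 1)) D)
      (Ev fun c => Std c j false x (2 ^ (i - 1)) D) := SEPI_Q_nonneg _ _ _
  have h2 : 1 / b₀ / 2 ^ (i₀ - i) ≤ 1 / b₀ := by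
    refine div_le_self hA ?_
    exact one_le_pow₀ (by norm_num)
  have hC0 : (0 : ℝ) ≤ C := by linarith
  gcongr

end TP
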